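import Pool.Agent.Helper35.HC.StD

/-!
# Project HC, module LPH : the weighted integral of the traceless curvature is bounded
-/

set_option autoImplicit false

namespace Pool.Agent.Helper5.HC

open Helper35.HC Helper35.HSF Helper35.MS Helper35.PI Helper35.PI2 Helper32.CL
open scoped ContDiff Manifold Topology ENNReal BigOperators
open MeasureTheory Set Filter

theorem lph_ring (n k θ Y e G R Z w m μ E0 aa dd ad as ds lapθ θk : ℝ) (hY : Y ≠ 0)
    (hn : n ≠ 0) :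
    (θk * θ ^ 2) * (m * (E0 / Y) * (-2 * e + 2 * w * Y) - m * (m - 1) * (E0 / Y ^ 2) * dd)
      + E0 * ((k + 2) * (θk * θ) * (-2 * G + 2 * R) - (k + 2) * (k + 1) * θk * aa)
      - 2 * ((k + 2) * (θk * θ) * (m * (E0 / Y)) * ad)
      - Y * ((θk * θ ^ 2) * E0)
      + μ * (((θk * θ) * E0 * (1 / 2 * lapθ + (1 - 1 / n) * e - G - Z)
          + ((θk * θ) * (m * (E0 / Y)) * ds + E0 * ((k + 1) * θk) * as))
        - 1 / 2 * ((θk * θ) * E0 * lapθ
          + ((θk * θ) * (m * (E0 / Y)) * ad + E0 * ((k + 1) * θk) * aa)))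
    = θk * E0 * ((k + 2) * θ * (-2 * G + 2 * R) - (k + 2) * ((k + 2) - 1) * aa
      + θ ^ 2 * (m / Y) * (-2 * e + 2 * w * Y) - m * (m - 1) * θ ^ 2 * dd / Y ^ 2
      - 2 * (k + 2) * m * θ * ad / Y - Y * θ ^ 2
      + μ * θ * ((1 - 1 / n) * e - G - Z)
      + μ * (((k + 2) - 1) * as - 1 / 2 * (((k + 2) - 1) * aa) + (m * θ / Y) * ds
        - 1 / 2 * ((m * θ / Y) * ad))) := by
  field_simp
  ring

theorem CSTJ_slice {M : Type} [TopologicalSpace M] {V : Type} [TopologicalSpace V] {J : Set ℝ}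
    {g : M → ℝ → V} (h : CSTJ J g) {t : ℝ} (ht : t ∈ J) : Continuous fun q => g q t := by
  have h1 : Continuous fun q : M => (q, t) := by fun_prop
  exact h.comp_continuous h1 fun q => ⟨mem_univ _, ht⟩

theorem int_comb {α : Type*} [MeasurableSpace α] {P : Measure α} {f g h : α → ℝ}
    (hf : Integrable f P) (hg : Integrable g P) (hh : Integrable h P) (zf : ∫ x, f x ∂P = 0)
    (zg : ∫ x, g x ∂P = 0) (zh : ∫ x, h x ∂P = 0) (μ : ℝ) :
    ∫ x, (f x - μ * (g x - 1 / 2 * h x)) ∂P = 0 := by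
  have h1 : Integrable (fun x => 1 / 2 * h x) P := hh.const_mul (1 / 2)
  have h2 : Integrable (fun x => g x - 1 / 2 * h x) P := hg.sub h1
  have h3 : Integrable (fun x => μ * (g x - 1 / 2 * h x)) P := h2.const_mul μ
  rw [integral_sub hf h3, integral_const_mul, integral_sub hg h1, integral_const_mul, zf, zg, zh]
  ring

/-- Groenwall on a half open interval -/
theorem gron {I I' : ℝ → ℝ} {a b c : ℝ} (hd : ∀ t ∈ Ico a b, HasDerivAt I (I' t) t)
    (hle : ∀ t ∈ Ico a b, I' t ≤ c * I t) (hc : 0 ≤ c) (hab : b - a ≤ 1) (h0 : 0 ≤ I a) :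
    ∀ t ∈ Ico a b, I t ≤ I a * Real.exp c := by
  intro t ht
  have hd2 : ∀ s ∈ Ico a b, HasDerivAt (fun s => Real.exp (-c * s) * I s)
      (Real.exp (-c * s) * (-c) * I s + Real.exp (-c * s) * I' s) s := by
    intro s hs
    have h1 : HasDerivAt (fun s : ℝ => -c * s) (-c) s := by
      simpa using (hasDerivAt_id s).const_mul (-c)
    exact (h1.exp).mul (hd s hs)
  have hanti : AntitoneOn (fun s => Real.exp (-c * s) * I s) (Ico a b) := by
    refine antitoneOn_of_deriv_nonpos (convex_Ico a b)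
      (fun s hs => (hd2 s hs).continuousAt.continuousWithinAt) ?_ ?_
    · rw [interior_Ico]
      exact fun s hs => (hd2 s ⟨hs.1.le, hs.2⟩).differentiableAt.differentiableWithinAt
    · intro s hs
      rw [interior_Ico] at hs
      rw [(hd2 s ⟨hs.1.le, hs.2⟩).deriv]
      have h1 := hle s ⟨hs.1.le, hs.2⟩
      have h2 : Real.exp (-c * s) * (-c) * I s + Real.exp (-c * s) * I' s
          = Real.exp (-c * s) * (I' s - c * I s) := by ring
      rw [h2]
      exact mul_nonpos_of_nonneg_of_nonpos (Real.exp_pos _).le (by linarith)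
  have ha : a ∈ Ico a b := ⟨le_rfl, ht.1.trans_lt ht.2⟩
  have h1 : Real.exp (-c * t) * I t ≤ Real.exp (-c * a) * I a := hanti ha ht ht.1
  have h2 : I t ≤ Real.exp (c * (t - a)) * I a := by
    have h3 : Real.exp (c * t) * (Real.exp (-c * t) * I t) ≤
        Real.exp (c * t) * (Real.exp (-c * a) * I a) :=
      mul_le_mul_of_nonneg_left h1 (Real.exp_pos _).le
    rw [← mul_assoc, ← Real.exp_add, ← mul_assoc, ← Real.exp_add] at h3
    have h4 : c * t + -c * t = 0 := by ring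
    have h5 : c * t + -c * a = c * (t - a) := by ring
    rw [h4, h5, Real.exp_zero, one_mul] at h3
    exact h3
  have h3 : Real.exp (c * (t - a)) ≤ Real.exp c := by
    apply Real.exp_le_exp.2
    have h4 : t - a ≤ 1 := by linarith [ht.2]
    nlinarith [ht.1]
  calc I t ≤ Real.exp (c * (t - a)) * I a := h2
    _ ≤ Real.exp c * I a := mul_le_mul_of_nonneg_right h3 h0
    _ = I a * Real.exp c := mul_comm _ _

theorem hLPH (hEA2 : StEA2) (hPKD : StPKD) (hJPK : StJPK) (hEPW : StEPW) (hHTR : StHTR)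
    (hTDJ : StTDJ) (hFVJ : StFVJ) (hPRJ : StPRJ) (hMUJ : StMUJ) (hSMR : StSMR)
    (hSMF : StSMF) : StLPH := by
  intro n hn N M _ _ _ _ _ _ _ T F ts κ₀ δ c χ hPU hD
  have hn1 : 1 ≤ n := by omega
  have hn0 : (0 : ℝ) < n := by exact_mod_cast hn1
  -- the flow on `(0,T)`
  obtain ⟨J, hJdef⟩ : ∃ J : Set ℝ, J = Ioo 0 T := ⟨_, rfl⟩
  have hJo : IsOpen J := by rw [hJdef]; exact isOpen_Ioo
  have hJc : ∀ t ∈ Ico ts T, t ∈ J := by
    intro t ht
    rw [hJdef]
    exact ⟨hD.ts0.1.trans_le ht.1, ht.2⟩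
  have hfl : IsMCFJ (n := n) J F := by rw [hJdef]; exact hD.fl
  have him : IsImmJ (n := n) J F := hfl.toIsImmJ
  -- the constants
  obtain ⟨p, μ, K, hnp, hp3, hμ, hK0, hAL⟩ := hEA2 n δ hn hD.δ0 hD.δ1
  refine ⟨p, hnp, hp3, ?_⟩
  obtain ⟨k, rfl⟩ : ∃ k, p = k + 2 := ⟨p - 2, by omega⟩
  obtain ⟨m, hm⟩ : ∃ m : ℝ, m = (n : ℝ) - ((k + 2 : ℕ) : ℝ) := ⟨_, rfl⟩
  rw [← hm]
  -- smooth functions
  obtain ⟨-, -, -, hsHH, hsθ, -, -, -⟩ := hSMF n N M J F him
  obtain ⟨Y, hYdef⟩ : ∃ Y : M → ℝ → ℝ, Y = fun q t => ‖HH (n := n) F q t‖ ^ 2 := ⟨_, rfl⟩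
  have hYg : ∀ q t, ‖HH (n := n) F q t‖ ^ 2 = Y q t := fun q t => by rw [hYdef]
  have hY1 : ∀ q, ∀ t ∈ J, 1 ≤ Y q t := fun q t ht => by
    rw [← hYg]
    rw [hJdef] at ht
    exact hD.Y1 t ht q
  have hYpos : ∀ q, ∀ t ∈ J, 0 < Y q t := fun q t ht => lt_of_lt_of_le one_pos (hY1 q t ht)
  simp only [hYg] at hsHH ⊢
  obtain ⟨hsem, hem⟩ := hEPW n N M J F him (fun q t => Y q t) m hsHH hYpos
  have hpow : ∀ j : ℕ, ContDiff ℝ ∞ (fun x : ℝ => x ^ j) := fun j => contDiff_id.pow j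
  obtain ⟨-, -, hθp, -⟩ := hHTR n N M J F him (thN n F) (thN n F) hsθ hsθ
  obtain ⟨hsθ2, hθ2⟩ := hθp (fun x => x ^ (k + 2)) (hpow (k + 2))
  obtain ⟨hsθ1, hθ1⟩ := hθp (fun x => x ^ (k + 1)) (hpow (k + 1))
  obtain ⟨⟨hsΦ, hΦ⟩, -⟩ := hHTR n N M J F him (fun q t => thN n F q t ^ (k + 2))
    (fun q t => Y q t ^ m) hsθ2 hsem
  obtain ⟨⟨hsw, hw⟩, -⟩ := hHTR n N M J F him (fun q t => thN n F q t ^ (k + 1))
    (fun q t => Y q t ^ m) hsθ1 hsem
  obtain ⟨Φ, hΦdef⟩ : ∃ Φ : M → ℝ → ℝ, Φ = fun q t => thN n F q t ^ (k + 2) * Y q t ^ m :=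
    ⟨_, rfl⟩
  obtain ⟨w, hwdef⟩ : ∃ w : M → ℝ → ℝ, w = fun q t => thN n F q t ^ (k + 1) * Y q t ^ m :=
    ⟨_, rfl⟩
  have hΦgoal : ∀ q t, thN n F q t ^ (k + 2) * Y q t ^ m = Φ q t := fun q t => by
    rw [hΦdef]
  simp only [hΦgoal] at hsΦ hΦ ⊢
  have hwgoal : ∀ q t, thN n F q t ^ (k + 1) * Y q t ^ m = w q t := fun q t => by
    rw [hwdef]
  simp only [hwgoal] at hsw hw
  obtain ⟨hKs, -⟩ := hJPK n N hn1 M J F hfl
  -- the three fields
  have hX1 : ∀ t ∈ J, ContMDiff (𝓡 n) 𝓘(ℝ, EE N) 1 (gdM n F t (fun q => Φ q t)) :=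
    fun t ht => (((hSMR n N M J F him Φ hsΦ).1 t ht).2).of_le
      (WithTop.coe_le_coe.2 (le_top : (1 : ℕ∞) ≤ ⊤))
  have hwsm : ∀ t ∈ J, ContMDiff (𝓡 n) 𝓘(ℝ, ℝ) 1 (fun q => w q t) :=
    fun t ht => (((hSMR n N M J F him w hsw).1 t ht).1).of_le
      (WithTop.coe_le_coe.2 (le_top : (1 : ℕ∞) ≤ ⊤))
  have hgθ : ∀ t ∈ J, ContMDiff (𝓡 n) 𝓘(ℝ, EE N) 1 (gdM n F t (fun q => thN n F q t)) :=
    fun t ht => (((hSMR n N M J F him (thN n F) hsθ).1 t ht).2).of_le
      (WithTop.coe_le_coe.2 (le_top : (1 : ℕ∞) ≤ ⊤))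
  have hX2 : ∀ t ∈ J, ContMDiff (𝓡 n) 𝓘(ℝ, EE N) 1 (fun q => w q t • Sd n F t q) :=
    fun t ht => (hwsm t ht).smul (hKs t ht).1
  have hX3 : ∀ t ∈ J, ContMDiff (𝓡 n) 𝓘(ℝ, EE N) 1
      (fun q => w q t • gdM n F t (fun q => thN n F q t) q) :=
    fun t ht => (hwsm t ht).smul (hgθ t ht)
  obtain ⟨c₁, hc₁⟩ : ∃ c₁ : ℝ, c₁ = K * |κ₀| := ⟨_, rfl⟩
  have hc₁0 : 0 ≤ c₁ := by rw [hc₁]; exact mul_nonneg hK0 (abs_nonneg _)
  have hθnn : ∀ t ∈ Ico ts T, ∀ q, 0 ≤ thN n F q t := by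
    intro t ht q
    obtain ⟨G, R, Z, a, w', -, -, -, h, -⟩ := hPKD n hn N M T F ts κ₀ δ hD t ht q _ _ _ rfl rfl rfl
    exact h
  have hΦnn : ∀ t ∈ Ico ts T, ∀ q, 0 ≤ Φ q t := by
    intro t ht q
    rw [hΦdef]
    exact mul_nonneg (pow_nonneg (hθnn t ht q) _) (Real.rpow_nonneg (hYpos q t (hJc t ht)).le _)
  -- the pointwise inequality
  have key : ∀ t ∈ Ico ts T, ∀ q, deriv (fun s => Φ q s) t - Y q t * Φ q t
      ≤ dvg (n := n) F (gdM n F t (fun q => Φ q t)) q t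
        - μ * (dvg (n := n) F (fun q => w q t • Sd n F t q) q t
          - 1 / 2 * dvg (n := n) F (fun q => w q t • gdM n F t (fun q => thN n F q t) q) q t)
        + c₁ * Φ q t := by
    intro t htc q
    have ht : t ∈ J := hJc t htc
    have hPR := (hPRJ n N M J F him t ht).1
    have hd2 := hPR (fun q => w q t) (hwsm t ht) (Sd n F t) (hKs t ht).1 q
    have hd3 := hPR (fun q => w q t) (hwsm t ht) (gdM n F t (fun q => thN n F q t)) (hgθ t ht) q
    obtain ⟨G, R, Z, al, w', hG0, hal0, halθ, hθ0, hθY, he0, heG, hw1, hw2, hR, -, -, hhθ, hhY, -,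
      hdS, hSn, hgn, hgY, hZ, hP2⟩ := hPKD n hn N M T F ts κ₀ δ hD t htc q (Y q t)
        (thN n F q t) (eH n F q t) (hYg q t).symm rfl rfl
    have hYq := hYpos q t ht
    simp only [hYg] at hhY hgY
    obtain ⟨hE1', hE2'⟩ := hAL (EE N) (gdM n F t (fun q => thN n F q t) q)
      (gdM n F t (fun q => Y q t) q) (Sd n F t q) (thN n F q t) (Y q t) (eH n F q t) G R Z al w' m
      hθ0 hYq he0 hG0 hal0 halθ hθY heG hSn hgn hgY hw1 hw2 hR hZ hm _ rfl
    have hlap : deriv (fun s => Φ q s) t = htN n F Φ q t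
        + dvg (n := n) F (gdM n F t (fun q => Φ q t)) q t := by
      unfold htN lapN
      ring
    have hlapθ : dvg (n := n) F (gdM n F t (fun q => thN n F q t)) q t
        = lapN n F (thN n F) q t := rfl
    have dp : ∀ (j : ℕ) (x : ℝ), deriv (fun x : ℝ => x ^ (j + 1)) x = ((j : ℝ) + 1) * x ^ j := by
      intro j x
      rw [deriv_pow_field]
      push_cast
      rfl
    have ddp : ∀ x : ℝ, deriv (deriv fun x : ℝ => x ^ (k + 2)) x
        = ((k : ℝ) + 2) * ((k : ℝ) + 1) * x ^ k := by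
      intro x
      have h1 : (deriv fun x : ℝ => x ^ (k + 2)) = fun x => ((k : ℝ) + 2) * x ^ (k + 1) := by
        funext y
        rw [dp (k + 1) y]
        push_cast
        ring
      rw [h1, deriv_const_mul_field, dp k x]
      ring
    have hgθ2 : gdM n F t (fun q => thN n F q t ^ (k + 2)) q
        = (((k : ℝ) + 2) * thN n F q t ^ (k + 1)) • gdM n F t (fun q => thN n F q t) q := by
      rw [(hθ2 q t ht).1, dp (k + 1)]
      push_cast
      congr 1
      ring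
    have hgθ1 : gdM n F t (fun q => thN n F q t ^ (k + 1)) q
        = (((k : ℝ) + 1) * thN n F q t ^ k) • gdM n F t (fun q => thN n F q t) q := by
      rw [(hθ1 q t ht).1, dp k]
    have hhθ2 : htN n F (fun q t => thN n F q t ^ (k + 2)) q t
        = ((k : ℝ) + 2) * thN n F q t ^ (k + 1) * htN n F (thN n F) q t
          - ((k : ℝ) + 2) * ((k : ℝ) + 1) * thN n F q t ^ k
            * ‖gdM n F t (fun q => thN n F q t) q‖ ^ 2 := by
      rw [(hθ2 q t ht).2, ddp, dp (k + 1)]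
      push_cast
      ring
    have hE1 : Y q t ^ (m - 1) = Y q t ^ m / Y q t :=
      Real.rpow_sub_one hYq.ne' m
    have hE2 : Y q t ^ (m - 2) = Y q t ^ m / Y q t ^ 2 := by
      rw [Real.rpow_sub hYq, Real.rpow_two]
    obtain ⟨hgem, hhem⟩ := hem q t ht
    rw [hE1] at hgem
    rw [hE1, hE2, hhY] at hhem
    have hΦq := (hΦ q t ht).2
    have hwq := (hw q t ht).1
    rw [hgθ2, hgem, hhem, hhθ2, hhθ] at hΦq
    rw [hgθ1, hgem] at hwq
    rw [hwq] at hd2 hd3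
    rw [hdS] at hd2
    rw [hlapθ] at hd3
    rw [hd2, hd3, hlap, hΦq]
    simp only [inner_add_left, inner_smul_left, inner_smul_right, inner_sub_right,
      real_inner_self_eq_norm_sq, RCLike.conj_to_real, smul_smul] at hE1' hE2' ⊢
    have hΦv : Φ q t = (thN n F q t ^ k * thN n F q t ^ 2) * Y q t ^ m := by
      rw [hΦdef]
      simp only
      ring
    have hwv : w q t = (thN n F q t ^ k * thN n F q t) * Y q t ^ m := by
      rw [hwdef]
      simp only
      ring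
    have hring := lph_ring (n : ℝ) (k : ℝ) (thN n F q t) (Y q t) (eH n F q t) G R Z w' m μ
      (Y q t ^ m) (‖gdM n F t (fun q => thN n F q t) q‖ ^ 2)
      (‖gdM n F t (fun q => Y q t) q‖ ^ 2)
      (inner ℝ (gdM n F t (fun q => thN n F q t) q) (gdM n F t (fun q => Y q t) q))
      (inner ℝ (gdM n F t (fun q => thN n F q t) q) (Sd n F t q))
      (inner ℝ (gdM n F t (fun q => Y q t) q) (Sd n F t q))
      (lapN n F (thN n F) q t) (thN n F q t ^ k) hYq.ne' hn0.ne'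
    have hfac : 0 ≤ thN n F q t ^ k * Y q t ^ m :=
      mul_nonneg (pow_nonneg hθ0 k) (Real.rpow_nonneg hYq.le m)
    have h6 : (inner ℝ (gdM n F t (fun q => Y q t) q)
        (gdM n F t (fun q => thN n F q t) q) : ℝ)
        = inner ℝ (gdM n F t (fun q => thN n F q t) q) (gdM n F t (fun q => Y q t) q) :=
      real_inner_comm _ _
    rw [h6] at hE1' hE2' ⊢
    obtain ⟨E, hE⟩ : ∃ E : ℝ, E = ((k : ℝ) + 2) * thN n F q t * (-2 * G + 2 * R)
      - ((k : ℝ) + 2) * (((k : ℝ) + 2) - 1) * ‖gdM n F t (fun q => thN n F q t) q‖ ^ 2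
      + thN n F q t ^ 2 * (m / Y q t) * (-2 * eH n F q t + 2 * w' * Y q t)
      - m * (m - 1) * thN n F q t ^ 2 * ‖gdM n F t (fun q => Y q t) q‖ ^ 2 / Y q t ^ 2
      - 2 * ((k : ℝ) + 2) * m * thN n F q t
        * inner ℝ (gdM n F t (fun q => thN n F q t) q) (gdM n F t (fun q => Y q t) q) / Y q t
      - Y q t * thN n F q t ^ 2
      + μ * thN n F q t * ((1 - 1 / (n : ℝ)) * eH n F q t - G - Z)
      + μ * ((((k : ℝ) + 2) - 1)
          * inner ℝ (gdM n F t (fun q => thN n F q t) q) (Sd n F t q)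
        - 1 / 2 * ((((k : ℝ) + 2) - 1) * ‖gdM n F t (fun q => thN n F q t) q‖ ^ 2)
        + (m * thN n F q t / Y q t) * inner ℝ (gdM n F t (fun q => Y q t) q) (Sd n F t q)
        - 1 / 2 * ((m * thN n F q t / Y q t)
          * inner ℝ (gdM n F t (fun q => thN n F q t) q) (gdM n F t (fun q => Y q t) q))) :=
      ⟨_, rfl⟩
    rw [← hE] at hring
    have hEK : E ≤ K * Y q t * thN n F q t ^ 2 := by
      rw [hE]
      refine le_trans (le_of_eq ?_) hE1'
      push_cast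
      ring
    have hE0 : κ₀ ≤ Y q t → E ≤ 0 := by
      intro h
      rw [hE]
      refine le_trans (le_of_eq ?_) (hE2' (hP2 h))
      push_cast
      ring
    have hEc : E ≤ c₁ * thN n F q t ^ 2 := by
      by_cases h : κ₀ ≤ Y q t
      · exact (hE0 h).trans (mul_nonneg hc₁0 (sq_nonneg _))
      · refine hEK.trans (mul_le_mul_of_nonneg_right ?_ (sq_nonneg _))
        rw [hc₁]
        exact mul_le_mul_of_nonneg_left ((not_le.1 h).le.trans (le_abs_self _)) hK0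
    have hfin : thN n F q t ^ k * Y q t ^ m * E ≤ c₁ * Φ q t := by
      have h1 := mul_le_mul_of_nonneg_left hEc hfac
      rw [hΦv]
      linarith
    rw [← hring] at hfin
    rw [hΦv] at hfin ⊢
    rw [hwv]
    have h7 : thN n F q t ^ (k + 2) = thN n F q t ^ k * thN n F q t ^ 2 := by ring
    have h8 : thN n F q t ^ (k + 1) = thN n F q t ^ k * thN n F q t := by ring
    rw [h7, h8]
    linarith
  -- integration
  have hset : SetupF n J F c χ := ⟨hfl, hPU⟩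
  obtain ⟨fs, -, hmu⟩ := hMUJ n N M J F c χ hset.toJ
  obtain ⟨-, hsC, hsC', hsD, -⟩ := hSMR n N M J F him Φ hsΦ
  have hder := (hTDJ n N M J F c χ hset).2 Φ (fun q t => deriv (fun s => Φ q s) t) hsC hsC'
    hsD
  simp only [hYg] at hder
  have hcHH : ∀ t ∈ J, Continuous fun q => Y q t := fun t ht =>
    ((hSMR n N M J F him (fun q t => Y q t) hsHH).1 t ht).1.continuous
  have hder0 : ∀ t ∈ Ico ts T, ∫ q, (deriv (fun s => Φ q s) t - Y q t * Φ q t)
      ∂muM n F c χ t ≤ c₁ * ∫ q, Φ q t ∂muM n F c χ t := by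
    intro t htc
    have ht : t ∈ J := hJc t htc
    have hint := (hmu t ht).2.2
    obtain ⟨c1, z1⟩ := hFVJ n N M J F c χ hset.toJ t ht _ (hX1 t ht)
    obtain ⟨c2, z2⟩ := hFVJ n N M J F c χ hset.toJ t ht _ (hX2 t ht)
    obtain ⟨c3, z3⟩ := hFVJ n N M J F c χ hset.toJ t ht _ (hX3 t ht)
    have o1 : ∀ q, (inner ℝ (HH (n := n) F q t) (gdM n F t (fun q => Φ q t) q) : ℝ) = 0 :=
      fun q => ((hSMR n N M J F him Φ hsΦ).2.2.2.2.2.2.2 t ht q).2
    have o2 : ∀ q, (inner ℝ (HH (n := n) F q t) (w q t • Sd n F t q) : ℝ) = 0 := fun q => by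
      rw [inner_smul_right, (hKs t ht).2 q, mul_zero]
    have o3 : ∀ q, (inner ℝ (HH (n := n) F q t)
        (w q t • gdM n F t (fun q => thN n F q t) q) : ℝ) = 0 := fun q => by
      rw [inner_smul_right,
        ((hSMR n N M J F him (thN n F) hsθ).2.2.2.2.2.2.2 t ht q).2, mul_zero]
    simp only [o1, add_zero] at z1
    simp only [o2, add_zero] at z2
    simp only [o3, add_zero] at z3
    have hcΦ : Continuous fun q => Φ q t := CSTJ_slice hsC ht
    have hcD : Continuous fun q => deriv (fun s => Φ q s) t := CSTJ_slice hsC' ht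
    have i0 := (hint _ (hcD.sub ((hcHH t ht).mul hcΦ))).1
    have i1 := (hint _ c1).1
    have i2 := (hint _ c2).1
    have i3 := (hint _ c3).1
    have iΦ := (hint _ hcΦ).1
    have i23 := i2.sub (i3.const_mul (1 / 2))
    have i123 := i1.sub (i23.const_mul μ)
    refine (integral_mono i0 (i123.add (iΦ.const_mul c₁)) fun q => key t htc q).trans
      (le_of_eq ?_)
    have h1 := int_comb i1 i2 i3 z1 z2 z3 μ
    have h2 : ∫ q, ((fun q => dvg (n := n) F (gdM n F t (fun q => Φ q t)) q t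
        - μ * (dvg (n := n) F (fun q => w q t • Sd n F t q) q t
          - 1 / 2 * dvg (n := n) F
            (fun q => w q t • gdM n F t (fun q => thN n F q t) q) q t)) q
        + (fun q => c₁ * Φ q t) q) ∂muM n F c χ t
        = ∫ q, (dvg (n := n) F (gdM n F t (fun q => Φ q t)) q t
        - μ * (dvg (n := n) F (fun q => w q t • Sd n F t q) q t
          - 1 / 2 * dvg (n := n) F
            (fun q => w q t • gdM n F t (fun q => thN n F q t) q) q t)) ∂muM n F c χ t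
          + ∫ q, c₁ * Φ q t ∂muM n F c χ t := integral_add i123 (iΦ.const_mul c₁)
    refine h2.trans ?_
    rw [h1, integral_const_mul, zero_add]
  have hts : ts ∈ Ico ts T := ⟨le_rfl, hD.ts0.2⟩
  refine ⟨(∫ q, Φ q ts ∂muM n F c χ ts) * Real.exp c₁, ?_⟩
  refine gron (I := fun t => ∫ q, Φ q t ∂muM n F c χ t)
    (I' := fun t => ∫ q, (deriv (fun s => Φ q s) t - Y q t * Φ q t) ∂muM n F c χ t)
    (fun t ht => hder t (hJc t ht)) hder0 hc₁0 ?_ ?_
  · linarith [hD.T1, hD.ts0.1]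
  · exact integral_nonneg fun q => hΦnn ts hts q

end Pool.Agent.Helper5.HC
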